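import Pool.Agent.W79.BP.Defs

/-!
# Convergence for one n (S_ONE)
-/

set_option autoImplicit false

namespace Pool.Agent.W382.BP.One

open scoped Classical
open Pool.Agent.W79.BP

theorem main : S_STP → S_ONE := by
  intro hstp n
  obtain ⟨hsum, hst, hst1, hst0, hlin, -, hcon⟩ := hstp n
  set ρ : ℝ := 1 - 1 / (n.factorial : ℝ) with hρ
  have hf1 : (1 : ℝ) ≤ n.factorial := by exact_mod_cast Nat.factorial_pos n
  have hfi : (0 : ℝ) < 1 / (n.factorial : ℝ) := by positivity
  have hfi1 : 1 / (n.factorial : ℝ) ≤ 1 := by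
    rw [div_le_one (by linarith)]
    exact hf1
  have hρ0 : 0 ≤ ρ := by linarith
  have hρ1 : ρ < 1 := by linarith
  obtain ⟨T, hT⟩ := exists_pow_lt_of_lt_one (show (0 : ℝ) < 1 / 4 by norm_num) hρ1
  refine ⟨T, fun α t ht => ?_⟩
  -- one step
  have hstep : ∀ t : ℕ, stp (fun β => mu α t β - st β) = fun β => mu α (t + 1) β - st β := by
    intro t
    have h1 := hlin (mu α t) (fun β => st β) (-1)
    have h2 : (fun β => mu α t β - st β) = fun β => mu α t β + (-1) * st β := by
      funext β
      ring
    have h3 : stp (mu α t) = mu α (t + 1) := by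
      unfold mu
      rw [Function.iterate_succ_apply']
    rw [h2, h1, hst, h3]
    funext β
    ring
  have hmass : ∀ t : ℕ, ∑ β, (mu α t β - st β) = 0 := by
    intro t
    rw [Finset.sum_sub_distrib, hst1]
    induction t with
    | zero =>
      simp [mu]
    | succ t ih =>
      have h3 : stp (mu α t) = mu α (t + 1) := by
        unfold mu
        rw [Function.iterate_succ_apply']
      rw [← h3, hsum]
      exact ih
  have h0 : ∑ β, |mu α 0 β - st β| ≤ 2 := by
    calc ∑ β, |mu α 0 β - st β| ≤ ∑ β, (|mu α 0 β| + |st β|) :=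
          Finset.sum_le_sum fun β _ => abs_sub _ _
      _ = ∑ β, |mu α 0 β| + ∑ β : SimpleGraph (Fin n), |st β| := Finset.sum_add_distrib
      _ = 1 + 1 := by
          congr 1
          · simp [mu, apply_ite abs]
          · rw [← hst1]
            exact Finset.sum_congr rfl fun β _ => abs_of_nonneg (hst0 β)
      _ = 2 := by norm_num
  have hall : ∀ t : ℕ, ∑ β, |mu α t β - st β| ≤ ρ ^ t * 2 := by
    intro t
    induction t with
    | zero => simpa using h0
    | succ t ih =>
      have h1 := hcon (fun β => mu α t β - st β) (hmass t)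
      rw [hstep t] at h1
      refine h1.trans ?_
      rw [pow_succ, mul_comm (ρ ^ t) ρ, mul_assoc]
      exact mul_le_mul_of_nonneg_left ih hρ0
  have h1 := hall t
  have h2 : ρ ^ t ≤ ρ ^ T := pow_le_pow_of_le_one hρ0 hρ1.le ht
  linarith

end Pool.Agent.W382.BP.One
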